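import Pool.Agent.SHP.Stmts
import Pool.Agent.Results.MP_d2d93c_nt.NotOneModEight

namespace Pool.Agent.SHP.H78

theorem fin (hNer : NerStmt) (hFr1 : Fr1Stmt) (hFr2 : Fr2Stmt)
    (f g : ℕ) (hg : 1 ≤ g) (hfg : g < f) (hc : Nat.Coprime f g) (ho : Odd (f + g))
    (hreg : (f ≠ g + 1 ∧ (f - g) ^ 12 ≤ f + g) ∨ (10 * g) ^ 12 ≤ f)
    (x y z : ℕ) (hx : 0 < x) (hy : 0 < y) (hz : 0 < z) :
    (f ^ 2 + g ^ 2) ^ x + (2 * f * g) ^ y ≠ (f ^ 2 - g ^ 2) ^ z := by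
  intro heq
  rcases hreg with ⟨hne, hd⟩ | hfar
  · by_cases h8 : (f - g) % 8 = 1
    · exact hNer f g x y z hg hfg hc ho (by omega) hd hx hy hz heq
    · exact Pool.Agent.Results.MP_d2d93c_nt.NotOneModEight.result f g hg hfg hc ho h8 x y z
        hx hy hz heq
  · rcases le_or_gt ((f ^ 2 + g ^ 2) ^ x) ((2 * f * g) ^ y) with h | h
    · exact hFr2 f g x y z hg hc ho hfar hx hy hz h heq
    · exact hFr1 f g x y z hg hc ho hfar hx hy hz h heq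

end Pool.Agent.SHP.H78
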