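import Pool.Agent.SHP.Stmts

namespace Pool.Agent.SHP.H78

open Polynomial Finset

lemma coeff_sumX (a : ℕ → ℤ) (n i : ℕ) :
    (∑ j ∈ range n, C (a j) * X ^ j).coeff i = if i < n then a i else 0 := by
  rw [finsetSum_coeff]
  simp only [coeff_C_mul, coeff_X_pow, mul_ite, mul_one, mul_zero]
  rw [Finset.sum_ite_eq (range n) i a]
  simp

/-- `(q+1) Q_{q+1,N} = (p+q+1)(1+X)Q - X(1+X)Q' - (N+1) X Q`, `Q = Q_{q,N+1}`. -/
lemma stepQ (N p q : ℕ) (hN : p + 1 ≤ N) :
    C ((q : ℤ) + 1) * (∑ j ∈ range (q + 1 + 1), C (cQ N p (q + 1) j) * X ^ j)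
      = (1 + X) * (C ((p : ℤ) + q + 1) * (∑ j ∈ range (q + 1), C (cQ (N + 1) p q j) * X ^ j)
          - X * derivative (∑ j ∈ range (q + 1), C (cQ (N + 1) p q j) * X ^ j))
        - C ((N : ℤ) + 1) * (X * ∑ j ∈ range (q + 1), C (cQ (N + 1) p q j) * X ^ j) := by
  obtain ⟨n, rfl⟩ : ∃ n, N = p + 1 + n := ⟨N - (p + 1), by omega⟩
  set Q : ℤ[X] := ∑ j ∈ range (q + 1), C (cQ (p + 1 + n + 1) p q j) * X ^ j with hQ
  have hc : ∀ i, Q.coeff i = if i < q + 1 then cQ (p + 1 + n + 1) p q i else 0 := by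
    intro i; rw [hQ]; exact coeff_sumX _ _ _
  have e1 : (1 + X) * (C ((p : ℤ) + q + 1) * Q - X * derivative Q)
      - C (((p + 1 + n : ℕ) : ℤ) + 1) * (X * Q)
      = C ((p : ℤ) + q + 1) * Q - X * derivative Q
        + X * (C ((p : ℤ) + q + 1) * Q - X * derivative Q - C (((p + 1 + n : ℕ) : ℤ) + 1) * Q) := by
    ring
  rw [e1]
  ext i
  rw [coeff_C_mul, coeff_sumX]
  rcases i with _ | i
  · -- i = 0
    simp only [coeff_add, coeff_sub, mul_coeff_zero, coeff_X_zero, zero_mul, sub_zero,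
      add_zero, hc, coeff_C_zero]
    rw [if_pos (by omega), if_pos (by omega)]
    unfold cQ
    simp only [pow_zero, one_mul, Nat.sub_zero, Nat.choose_zero_right, mul_one]
    have h := Nat.add_one_mul_choose_eq (p + q) q
    have h1 : Nat.choose (p + (q + 1)) p = Nat.choose (p + q + 1) (q + 1) := by
      rw [← Nat.choose_symm (by omega : q + 1 ≤ p + q + 1)]
      congr 1
      omega
    have h2 : Nat.choose (p + q) p = Nat.choose (p + q) q := by
      rw [← Nat.choose_symm (by omega : q ≤ p + q)]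
      congr 1
      omega
    rw [h1, h2]
    have h3 : ((p + q + 1 : ℕ) : ℤ) * (Nat.choose (p + q) q : ℕ)
        = (Nat.choose (p + q + 1) (q + 1) : ℕ) * ((q + 1 : ℕ) : ℤ) := by
      exact_mod_cast h
    push_cast at h3 ⊢
    linarith
  · -- i + 1
    simp only [coeff_add, coeff_sub, coeff_C_mul, coeff_X_mul, coeff_derivative, hc]
    by_cases hiq : i < q + 1
    · obtain ⟨k, rfl⟩ : ∃ k, q = i + k := ⟨q - i, by omega⟩
      have hxd : (X * derivative Q).coeff i = i * cQ (p + 1 + n + 1) p (i + k) i := by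
        rcases i with _ | i
        · simp
        · rw [coeff_X_mul, coeff_derivative, hc, if_pos (by omega)]
          push_cast; ring
      rw [hxd, if_pos (by omega), if_pos hiq]
      -- the term with i+1
      have hk : ((p : ℤ) + ((i + k : ℕ) : ℤ) + 1) *
            (if i + 1 < i + k + 1 then cQ (p + 1 + n + 1) p (i + k) (i + 1) else 0)
          - (if i + 1 < i + k + 1 then cQ (p + 1 + n + 1) p (i + k) (i + 1) else 0) * ((i : ℤ) + 1)
          = (k : ℤ) * ((-1) ^ (i + 1) * (Nat.choose (p + k) p : ℕ)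
              * (Nat.choose (n + i + 2) (i + 1) : ℕ)) := by
        rcases k with _ | k
        · simp
        · rw [if_pos (by omega)]
          unfold cQ
          have e2 : p + (i + (k + 1)) - (i + 1) = p + k := by omega
          have e3 : p + 1 + n + 1 - p - 1 + (i + 1) = n + i + 2 := by omega
          rw [e2, e3]
          have h := Nat.add_one_mul_choose_eq (p + k) k
          have h1 : Nat.choose (p + (k + 1)) p = Nat.choose (p + k + 1) (k + 1) := by
            rw [← Nat.choose_symm (by omega : k + 1 ≤ p + k + 1)]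
            congr 1
            omega
          have h2 : Nat.choose (p + k) p = Nat.choose (p + k) k := by
            rw [← Nat.choose_symm (by omega : k ≤ p + k)]
            congr 1
            omega
          rw [h1, h2]
          have h3 : ((p + k + 1 : ℕ) : ℤ) * (Nat.choose (p + k) k : ℕ)
              = (Nat.choose (p + k + 1) (k + 1) : ℕ) * ((k + 1 : ℕ) : ℤ) := by
            exact_mod_cast h
          push_cast at h3 ⊢
          linear_combination ((-1) ^ (i + 1) * (Nat.choose (n + i + 2) (i + 1) : ℤ)) * h3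
      have hci : cQ (p + 1 + n + 1) p (i + k) i
          = (-1) ^ i * (Nat.choose (p + k) p : ℕ) * (Nat.choose (n + i + 1) i : ℕ) := by
        unfold cQ
        have e2 : p + (i + k) - i = p + k := by omega
        have e3 : p + 1 + n + 1 - p - 1 + i = n + i + 1 := by omega
        rw [e2, e3]; push_cast; ring
      have hcl : cQ (p + 1 + n) p (i + k + 1) (i + 1)
          = (-1) ^ (i + 1) * (Nat.choose (p + k) p : ℕ) * (Nat.choose (n + i + 1) (i + 1) : ℕ) := by
        unfold cQ
        have e2 : p + (i + k + 1) - (i + 1) = p + k := by omega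
        have e3 : p + 1 + n - p - 1 + (i + 1) = n + i + 1 := by omega
        rw [e2, e3]; push_cast; ring
      rw [hk, hci, hcl]
      have hp : (Nat.choose (n + i + 2) (i + 1) : ℤ)
          = Nat.choose (n + i + 1) i + Nat.choose (n + i + 1) (i + 1) := by
        exact_mod_cast Nat.choose_succ_succ (n + i + 1) i
      have hq : (Nat.choose (n + i + 1) (i + 1) : ℤ) * (i + 1)
          = Nat.choose (n + i + 1) i * (n + 1) := by
        have h := Nat.choose_succ_right_eq (n + i + 1) i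
        have e : n + i + 1 - i = n + 1 := by omega
        rw [e] at h
        exact_mod_cast h
      rw [hp]
      push_cast
      linear_combination ((-1) ^ (i + 1) * (Nat.choose (p + k) p : ℤ)) * hq
    · have hxd : (X * derivative Q).coeff i = 0 := by
        rcases i with _ | i
        · simp
        · rw [coeff_X_mul, coeff_derivative, hc, if_neg (by omega)]
          ring
      rw [hxd, if_neg (by omega), if_neg (by omega), if_neg (by omega)]
      ring

/-- `(q+1) P_{q+1,N} = (p+q+1) P - X P'`, `P = P_{q,N+1}`. -/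
lemma stepP (N p q : ℕ) :
    C ((q : ℤ) + 1) * (∑ j ∈ range (p + 1), C (cP N p (q + 1) j) * X ^ j)
      = C ((p : ℤ) + q + 1) * (∑ j ∈ range (p + 1), C (cP (N + 1) p q j) * X ^ j)
        - X * derivative (∑ j ∈ range (p + 1), C (cP (N + 1) p q j) * X ^ j) := by
  set P : ℤ[X] := ∑ j ∈ range (p + 1), C (cP (N + 1) p q j) * X ^ j with hP
  have hc : ∀ i, P.coeff i = if i < p + 1 then cP (N + 1) p q i else 0 := by
    intro i; rw [hP]; exact coeff_sumX _ _ _
  ext i
  have hxd : (X * derivative P).coeff i = i * P.coeff i := by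
    rcases i with _ | i
    · simp
    · rw [coeff_X_mul, coeff_derivative]; push_cast; ring
  rw [coeff_C_mul, coeff_sumX, coeff_sub, coeff_C_mul, hxd, hc]
  by_cases hi : i < p + 1
  · rw [if_pos hi, if_pos hi]
    obtain ⟨k, rfl⟩ : ∃ k, p = i + k := ⟨p - i, by omega⟩
    unfold cP
    have e1 : i + k + (q + 1) - i = k + q + 1 := by omega
    have e2 : i + k + q - i = k + q := by omega
    have e3 : N + (q + 1) = N + 1 + q := by omega
    rw [e1, e2, e3]
    have h := Nat.add_one_mul_choose_eq (k + q) q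
    have h3 : ((k + q + 1 : ℕ) : ℤ) * (Nat.choose (k + q) q : ℕ)
        = (Nat.choose (k + q + 1) (q + 1) : ℕ) * ((q + 1 : ℕ) : ℤ) := by
      exact_mod_cast h
    push_cast at h3 ⊢
    linear_combination (-(Nat.choose (N + 1 + q) i : ℤ)) * h3
  · rw [if_neg hi, if_neg hi]; ring

/-- the remainder step -/
lemma stepR (N p q : ℕ) (hN : p + 1 ≤ N) :
    C ((q : ℤ) + 1) * ((-1) ^ (q + 1) * X ^ (p + (q + 1) + 1)
        * ∑ j ∈ range (N - p), C (cR N p (q + 1) j) * (X : ℤ[X]) ^ j)
      = C ((p : ℤ) + q + 1) * ((-1) ^ q * X ^ (p + q + 1)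
          * ∑ j ∈ range (N + 1 - p), C (cR (N + 1) p q j) * (X : ℤ[X]) ^ j)
        - X * derivative ((-1) ^ q * X ^ (p + q + 1)
          * ∑ j ∈ range (N + 1 - p), C (cR (N + 1) p q j) * (X : ℤ[X]) ^ j) := by
  have hd : ∀ j : ℕ, C ((p : ℤ) + q + 1) * ((-1) ^ q * X ^ (p + q + 1)
          * (C (cR (N + 1) p q j) * (X : ℤ[X]) ^ j))
        - X * derivative ((-1) ^ q * X ^ (p + q + 1) * (C (cR (N + 1) p q j) * (X : ℤ[X]) ^ j))
        = (-1) ^ (q + 1) * (C ((j : ℤ) * cR (N + 1) p q j) * X ^ (p + q + 1 + j)) := by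
    intro j
    have e : (-1 : ℤ[X]) ^ q * X ^ (p + q + 1) * (C (cR (N + 1) p q j) * (X : ℤ[X]) ^ j)
        = C ((-1) ^ q * cR (N + 1) p q j) * X ^ (p + q + 1 + j) := by
      rw [C_mul, C_pow, C_neg, C_1, pow_add X (p + q + 1) j]; ring
    rw [e, derivative_C_mul_X_pow]
    have e2 : p + q + 1 + j - 1 = p + q + j := by omega
    have e3 : (X : ℤ[X]) ^ (p + q + 1 + j) = X * X ^ (p + q + j) := by
      rw [← pow_succ']; congr 1; omega
    rw [e2, e3]
    have e4 : X * (C ((-1) ^ q * cR (N + 1) p q j * ((p + q + 1 + j : ℕ) : ℤ)) * (X : ℤ[X]) ^ (p + q + j))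
        = C ((-1) ^ q * cR (N + 1) p q j * ((p + q + 1 + j : ℕ) : ℤ)) * (X * X ^ (p + q + j)) := by
      ring
    have e5 : (-1 : ℤ[X]) ^ (q + 1) = C ((-1 : ℤ) ^ (q + 1)) := by
      rw [C_pow, C_neg, C_1]
    rw [e4, ← mul_assoc (C ((p : ℤ) + q + 1)), ← C_mul, ← sub_mul, ← C_sub, e5,
      ← mul_assoc (C ((-1 : ℤ) ^ (q + 1))), ← C_mul]
    congr 2
    push_cast
    ring
  have hs : C ((p : ℤ) + q + 1) * ((-1) ^ q * X ^ (p + q + 1)
          * ∑ j ∈ range (N + 1 - p), C (cR (N + 1) p q j) * (X : ℤ[X]) ^ j)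
        - X * derivative ((-1) ^ q * X ^ (p + q + 1)
          * ∑ j ∈ range (N + 1 - p), C (cR (N + 1) p q j) * (X : ℤ[X]) ^ j)
      = ∑ j ∈ range (N + 1 - p), (-1) ^ (q + 1) *
          (C ((j : ℤ) * cR (N + 1) p q j) * X ^ (p + q + 1 + j)) := by
    rw [Finset.mul_sum, Finset.mul_sum, derivative_sum, Finset.mul_sum, ← Finset.sum_sub_distrib]
    exact Finset.sum_congr rfl fun j _ => hd j
  rw [hs]
  have e0 : N + 1 - p = (N - p) + 1 := by omega
  rw [e0, Finset.sum_range_succ']
  simp only [Nat.cast_zero, zero_mul, C_0, mul_zero, add_zero]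
  rw [Finset.mul_sum, Finset.mul_sum]
  refine Finset.sum_congr rfl fun j _ => ?_
  have hj : ((j + 1 : ℕ) : ℤ) * cR (N + 1) p q (j + 1) = ((q : ℤ) + 1) * cR N p (q + 1) j := by
    unfold cR
    have e1 : N + 1 + q = N + (q + 1) := by omega
    have e2 : p + q + 1 + (j + 1) = p + (q + 1) + 1 + j := by omega
    have e3 : q + (j + 1) = q + 1 + j := by omega
    rw [e1, e2, e3]
    have h := Nat.choose_succ_right_eq (q + 1 + j) q
    have e : q + 1 + j - q = j + 1 := by omega
    rw [e] at h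
    have h3 : (Nat.choose (q + 1 + j) (q + 1) : ℤ) * ((q : ℤ) + 1)
        = Nat.choose (q + 1 + j) q * ((j : ℤ) + 1) := by exact_mod_cast h
    push_cast
    linear_combination (-(Nat.choose (N + (q + 1)) (p + (q + 1) + 1 + j) : ℤ)) * h3
  rw [hj, C_mul]
  have e4 : p + q + 1 + (j + 1) = p + (q + 1) + 1 + j := by omega
  rw [e4, pow_add X (p + (q + 1) + 1) j]
  ring

theorem pad : PadStmt := by
  intro N p q
  induction q generalizing N with
  | zero =>
    intro hN
    have e0 : ∑ j ∈ range (0 + 1), C (cQ N p 0 j) * (X : ℤ[X]) ^ j = 1 := by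
      simp [cQ]
    rw [e0, one_mul]
    have e1 : (1 + X : ℤ[X]) ^ N = ∑ j ∈ range (p + 1 + (N - p)), C ((Nat.choose N j : ℕ) : ℤ) * X ^ j := by
      rw [show p + 1 + (N - p) = N + 1 by omega, add_comm 1 X, add_pow]
      refine Finset.sum_congr rfl fun j _ => ?_
      simp [mul_comm]
    rw [e1, Finset.sum_range_add]
    have e2 : ∑ j ∈ range (p + 1), C (cP N p 0 j) * (X : ℤ[X]) ^ j
        = ∑ j ∈ range (p + 1), C ((Nat.choose N j : ℕ) : ℤ) * X ^ j := by
      refine Finset.sum_congr rfl fun j _ => ?_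
      simp [cP]
    rw [e2, add_sub_cancel_left, pow_zero, one_mul, Finset.mul_sum]
    refine Finset.sum_congr rfl fun j _ => ?_
    simp only [cR, add_zero, Nat.choose_zero_right, mul_one]
    rw [pow_add X (p + 1) j]
    ring
  | succ q ih =>
    intro hN
    have h := ih (N + 1) (by omega)
    set Q : ℤ[X] := ∑ j ∈ range (q + 1), C (cQ (N + 1) p q j) * X ^ j with hQ
    set P : ℤ[X] := ∑ j ∈ range (p + 1), C (cP (N + 1) p q j) * X ^ j with hP
    set R : ℤ[X] := (-1) ^ q * X ^ (p + q + 1)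
          * ∑ j ∈ range (N + 1 - p), C (cR (N + 1) p q j) * (X : ℤ[X]) ^ j with hR
    have hq0 : (C ((q : ℤ) + 1) : ℤ[X]) ≠ 0 := by
      rw [Ne, C_eq_zero]; positivity
    apply mul_left_cancel₀ hq0
    rw [stepR N p q hN, mul_sub, stepP N p q, ← mul_assoc, stepQ N p q hN]
    rw [← hQ, ← hP, ← hR]
    have hd : derivative (Q * (1 + X) ^ (N + 1) - P) = derivative R := by rw [h]
    rw [derivative_sub, derivative_mul] at hd
    have hdx : derivative ((1 + X : ℤ[X]) ^ (N + 1)) = C ((N : ℤ) + 1) * (1 + X) ^ N := by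
      rw [derivative_pow]
      simp
    rw [hdx] at hd
    have h' : R = Q * (1 + X) ^ (N + 1) - P := h.symm
    rw [h'] at hd ⊢
    rw [derivative_sub, derivative_mul, hdx]
    ring
end Pool.Agent.SHP.H78
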