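import Pool.Agent.SHP.Stmts

namespace Pool.Agent.SHP.H78

open Polynomial Finset

lemma coeff_sumX' (a : ℕ → ℤ) (n i : ℕ) :
    (∑ j ∈ range n, C (a j) * X ^ j).coeff i = if i < n then a i else 0 := by
  rw [finsetSum_coeff]
  simp only [coeff_C_mul, coeff_X_pow, mul_ite, mul_one, mul_zero]
  rw [Finset.sum_ite_eq (range n) i a]
  simp

/-- numerator polynomial -/
noncomputable def Pp (N p q : ℕ) : ℤ[X] := ∑ j ∈ range (p + 1), C (cP N p q j) * X ^ j
/-- denominator polynomial -/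
noncomputable def Qp (N p q : ℕ) : ℤ[X] := ∑ j ∈ range (q + 1), C (cQ N p q j) * X ^ j
/-- remainder polynomial -/
noncomputable def Rp (N p q : ℕ) : ℤ[X] :=
  (-1) ^ q * ∑ j ∈ range (N - p), C (cR N p q j) * (X : ℤ[X]) ^ j

lemma pad' (h : PadStmt) (N p q : ℕ) (hN : p + 1 ≤ N) :
    Qp N p q * (1 + X) ^ N - Pp N p q = X ^ (p + q + 1) * Rp N p q := by
  have := h N p q hN
  unfold Qp Pp Rp
  rw [this]; ring

lemma natDegree_sumX (a : ℕ → ℤ) (n : ℕ) :
    (∑ j ∈ range (n + 1), C (a j) * (X : ℤ[X]) ^ j).natDegree ≤ n := by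
  rw [natDegree_le_iff_coeff_eq_zero]
  intro i hi
  rw [coeff_sumX', if_neg (by omega)]

/-- The determinant of two consecutive approximants. -/
lemma det_eq (h : PadStmt) (N n : ℕ) (hn : 1 ≤ n) (hN : n + 1 ≤ N) :
    ∃ c : ℤ, c ≠ 0 ∧ Pp N (n - 1) n * Qp N n n - Pp N n n * Qp N (n - 1) n = C c * X ^ (2 * n) := by
  obtain ⟨m, rfl⟩ : ∃ m, n = m + 1 := ⟨n - 1, by omega⟩
  simp only [Nat.add_sub_cancel]
  set P1 := Pp N m (m + 1) with hP1d
  set P2 := Pp N (m + 1) (m + 1) with hP2d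
  set Q1 := Qp N m (m + 1) with hQ1d
  set Q2 := Qp N (m + 1) (m + 1) with hQ2d
  have h1 : Q1 * (1 + X) ^ N - P1 = X ^ (m + (m + 1) + 1) * Rp N m (m + 1) :=
    pad' h N m (m + 1) (by omega)
  have h2 : Q2 * (1 + X) ^ N - P2 = X ^ (m + 1 + (m + 1) + 1) * Rp N (m + 1) (m + 1) :=
    pad' h N (m + 1) (m + 1) (by omega)
  have hP1 : P1.natDegree ≤ m := natDegree_sumX _ _
  have hP2 : P2.natDegree ≤ m + 1 := natDegree_sumX _ _
  have hQ1 : Q1.natDegree ≤ m + 1 := natDegree_sumX _ _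
  have hQ2 : Q2.natDegree ≤ m + 1 := natDegree_sumX _ _
  have hdvd : (X : ℤ[X]) ^ (2 * (m + 1)) ∣ P1 * Q2 - P2 * Q1 := by
    refine ⟨-(Rp N m (m + 1)) * Q2 + X * Rp N (m + 1) (m + 1) * Q1, ?_⟩
    have e1 : P1 = Q1 * (1 + X) ^ N - X ^ (2 * (m + 1)) * Rp N m (m + 1) := by
      rw [show 2 * (m + 1) = m + (m + 1) + 1 by ring, ← h1]; ring
    have e2 : P2 = Q2 * (1 + X) ^ N - X ^ (2 * (m + 1)) * (X * Rp N (m + 1) (m + 1)) := by
      rw [← mul_assoc, ← pow_succ, show 2 * (m + 1) + 1 = m + 1 + (m + 1) + 1 by ring, ← h2]; ring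
    rw [e1, e2]; ring
  have hdeg : (P1 * Q2 - P2 * Q1).natDegree ≤ 2 * (m + 1) := by
    refine (natDegree_sub_le _ _).trans (max_le ?_ ?_)
    · exact (natDegree_mul_le.trans (add_le_add hP1 hQ2)).trans (by omega)
    · exact (natDegree_mul_le.trans (add_le_add hP2 hQ1)).trans (by omega)
  refine ⟨(P1 * Q2 - P2 * Q1).coeff (2 * (m + 1)), ?_, ?_⟩
  · have c1 : (P1 * Q2).coeff (2 * (m + 1)) = 0 := by
      apply coeff_eq_zero_of_natDegree_lt
      exact lt_of_le_of_lt (natDegree_mul_le.trans (add_le_add hP1 hQ2)) (by omega)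
    have c2 : (P2 * Q1).coeff (2 * (m + 1)) = P2.coeff (m + 1) * Q1.coeff (m + 1) := by
      rw [show 2 * (m + 1) = (m + 1) + (m + 1) by ring]
      exact coeff_mul_add_eq_of_natDegree_le hP2 hQ1
    have c3 : P2.coeff (m + 1) = cP N (m + 1) (m + 1) (m + 1) := by
      rw [hP2d, Pp, coeff_sumX', if_pos (by omega)]
    have c4 : Q1.coeff (m + 1) = cQ N m (m + 1) (m + 1) := by
      rw [hQ1d, Qp, coeff_sumX', if_pos (by omega)]
    rw [coeff_sub, c1, c2, c3, c4, zero_sub, neg_ne_zero]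
    unfold cP cQ
    refine mul_ne_zero ?_ (mul_ne_zero (pow_ne_zero _ (by norm_num)) ?_)
    · norm_cast
      refine mul_ne_zero ?_ ?_
      · exact (Nat.choose_pos (by omega)).ne'
      · exact (Nat.choose_pos (by omega)).ne'
    · norm_cast
      refine mul_ne_zero ?_ ?_
      · exact (Nat.choose_pos (by omega)).ne'
      · exact (Nat.choose_pos (by omega)).ne'
  · obtain ⟨G, hG⟩ := hdvd
    ext i
    rw [coeff_C_mul, coeff_X_pow]
    by_cases hi : i = 2 * (m + 1)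
    · subst hi; simp
    · rw [if_neg hi, mul_zero]
      rcases lt_or_gt_of_ne hi with hlt | hgt
      · rw [hG, coeff_X_pow_mul', if_neg (by omega)]
      · exact coeff_eq_zero_of_natDegree_lt (lt_of_le_of_lt hdeg hgt)

/-- integer numerator -/
def Pz (N n p : ℕ) (M b : ℤ) : ℤ := ∑ j ∈ range (p + 1), cP N p n j * b ^ j * M ^ (n - j)
/-- integer denominator -/
def Qz (N n p : ℕ) (M b : ℤ) : ℤ := ∑ j ∈ range (n + 1), cQ N p n j * b ^ j * M ^ (n - j)

lemma term_real {M : ℤ} (hM : 0 < M) (c b : ℤ) {j n : ℕ} (hj : j ≤ n) :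
    ((c * b ^ j * M ^ (n - j) : ℤ) : ℝ) = (M : ℝ) ^ n * (c * ((b : ℝ) / M) ^ j) := by
  have hM' : (M : ℝ) ≠ 0 := by exact_mod_cast hM.ne'
  push_cast
  rw [div_pow]
  have : (M : ℝ) ^ n = M ^ (n - j) * M ^ j := by rw [← pow_add]; congr 1; omega
  rw [this]
  field_simp

lemma Pz_real {M : ℤ} (hM : 0 < M) (b : ℤ) (N n p : ℕ) (hp : p ≤ n) :
    ((Pz N n p M b : ℤ) : ℝ) = (M : ℝ) ^ n * aeval ((b : ℝ) / M) (Pp N p n) := by
  unfold Pz Pp
  rw [map_sum, Finset.mul_sum, Int.cast_sum]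
  refine Finset.sum_congr rfl fun j hj => ?_
  rw [term_real hM _ _ (by rw [mem_range] at hj; omega)]
  simp

lemma Qz_real {M : ℤ} (hM : 0 < M) (b : ℤ) (N n p : ℕ) :
    ((Qz N n p M b : ℤ) : ℝ) = (M : ℝ) ^ n * aeval ((b : ℝ) / M) (Qp N p n) := by
  unfold Qz Qp
  rw [map_sum, Finset.mul_sum, Int.cast_sum]
  refine Finset.sum_congr rfl fun j hj => ?_
  rw [term_real hM _ _ (by rw [mem_range] at hj; omega)]
  simp

lemma rem_real (h : PadStmt) {M : ℤ} (hM : 0 < M) (b : ℤ) (N n p : ℕ) (hp : p ≤ n)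
    (hN : p + 1 ≤ N) :
    ((Qz N n p M b : ℤ) : ℝ) * (1 + (b : ℝ) / M) ^ N - (Pz N n p M b : ℤ)
      = (M : ℝ) ^ n * (((b : ℝ) / M) ^ (p + n + 1) * ((-1) ^ n *
          ∑ j ∈ range (N - p), (cR N p n j : ℝ) * ((b : ℝ) / M) ^ j)) := by
  have h0 := congrArg (aeval ((b : ℝ) / M)) (pad' h N p n hN)
  rw [map_sub, map_mul, map_mul] at h0
  rw [Qz_real hM, Pz_real hM b N n p hp]
  have h1 : aeval ((b : ℝ) / M) ((1 + X : ℤ[X]) ^ N) = (1 + (b : ℝ) / M) ^ N := by simp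
  have h2 : aeval ((b : ℝ) / M) ((X : ℤ[X]) ^ (p + n + 1)) = ((b : ℝ) / M) ^ (p + n + 1) := by
    simp
  have h3 : aeval ((b : ℝ) / M) (Rp N p n)
      = (-1) ^ n * ∑ j ∈ range (N - p), (cR N p n j : ℝ) * ((b : ℝ) / M) ^ j := by
    unfold Rp
    rw [map_mul, map_sum]
    simp
  rw [h1, h2, h3] at h0
  rw [← h0]; ring

lemma sumbound (K n : ℕ) (hn : n ≤ K) {v ρ : ℝ} (hv : 0 ≤ v) (hρ : 1 ≤ ρ) :
    ∑ j ∈ range (n + 1), (K.choose j : ℝ) * v ^ j ≤ ρ ^ n * (1 + v / ρ) ^ K := by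
  have hρ0 : (0 : ℝ) < ρ := by linarith
  have h1 : (1 + v / ρ) ^ K = ∑ j ∈ range (K + 1), (K.choose j : ℝ) * (v / ρ) ^ j := by
    rw [add_comm 1 (v / ρ), add_pow]
    refine Finset.sum_congr rfl fun j _ => ?_
    simp [mul_comm]
  rw [h1, Finset.mul_sum]
  have h2 : ∑ j ∈ range (n + 1), (K.choose j : ℝ) * v ^ j
      ≤ ∑ j ∈ range (n + 1), ρ ^ n * ((K.choose j : ℝ) * (v / ρ) ^ j) := by
    refine Finset.sum_le_sum fun j hj => ?_
    rw [mem_range] at hj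
    have e : ρ ^ n * ((K.choose j : ℝ) * (v / ρ) ^ j)
        = (K.choose j : ℝ) * v ^ j * ρ ^ (n - j) := by
      have : ρ ^ n = ρ ^ (n - j) * ρ ^ j := by rw [← pow_add]; congr 1; omega
      rw [this, div_pow]; field_simp
    rw [e]
    have h3 : 1 ≤ ρ ^ (n - j) := one_le_pow₀ hρ
    have h4 : 0 ≤ (K.choose j : ℝ) * v ^ j := by positivity
    nlinarith
  refine h2.trans (Finset.sum_le_sum_of_subset_of_nonneg ?_ ?_)
  · intro i hi
    rw [mem_range] at hi ⊢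
    omega
  · intro i _ _; positivity

lemma abs_cP_le {N p n j : ℕ} (hp : p ≤ n) :
    |(cP N p n j : ℝ)| ≤ 4 ^ n * ((N + n).choose j : ℝ) := by
  unfold cP
  rw [Int.cast_natCast, Nat.abs_cast]
  push_cast
  have h1 : ((p + n - j).choose n : ℝ) ≤ 4 ^ n := by
    have h2 : (p + n - j).choose n ≤ 2 ^ (p + n - j) := Nat.choose_le_two_pow _ _
    have h3 : 2 ^ (p + n - j) ≤ 2 ^ (2 * n) := Nat.pow_le_pow_right (by norm_num) (by omega)
    have h4 : (2 : ℕ) ^ (2 * n) = 4 ^ n := by rw [pow_mul]; norm_num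
    have h5 : (p + n - j).choose n ≤ 4 ^ n := by rw [← h4]; exact h2.trans h3
    exact_mod_cast h5
  have h6 : (0 : ℝ) ≤ ((N + n).choose j : ℝ) := by positivity
  nlinarith

lemma abs_cQ_le {N p n j : ℕ} (hp : p ≤ n) (hj : j ≤ n) (hN : p + 1 ≤ N) :
    |(cQ N p n j : ℝ)| ≤ 4 ^ n * ((N + n).choose j : ℝ) := by
  unfold cQ
  push_cast
  rw [abs_mul, abs_pow, abs_neg, abs_one, one_pow, one_mul, abs_of_nonneg (by positivity)]
  have h1 : ((p + n - j).choose p : ℝ) ≤ 4 ^ n := by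
    have h2 : (p + n - j).choose p ≤ 2 ^ (p + n - j) := Nat.choose_le_two_pow _ _
    have h3 : 2 ^ (p + n - j) ≤ 2 ^ (2 * n) := Nat.pow_le_pow_right (by norm_num) (by omega)
    have h4 : (2 : ℕ) ^ (2 * n) = 4 ^ n := by rw [pow_mul]; norm_num
    have h5 : (p + n - j).choose p ≤ 4 ^ n := by rw [← h4]; exact h2.trans h3
    exact_mod_cast h5
  have h6 : ((N - p - 1 + j).choose j : ℝ) ≤ ((N + n).choose j : ℝ) := by
    exact_mod_cast Nat.choose_le_choose j (by omega)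
  exact mul_le_mul h1 h6 (by positivity) (by positivity)

lemma bound_gen {M b : ℤ} (hM : 0 < M) (N n k : ℕ) (hk : k ≤ n) (c : ℕ → ℤ)
    (hc : ∀ j, j ≤ k → |(c j : ℝ)| ≤ 4 ^ n * ((N + n).choose j : ℝ)) {ρ : ℝ} (hρ : 1 ≤ ρ) :
    |((∑ j ∈ range (k + 1), c j * b ^ j * M ^ (n - j) : ℤ) : ℝ)|
      ≤ 4 ^ n * (M : ℝ) ^ n * ρ ^ n * (1 + |(b : ℝ)| / (M * ρ)) ^ (N + n) := by
  have hM' : (0 : ℝ) < M := by exact_mod_cast hM
  have hρ0 : (0 : ℝ) < ρ := by linarith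
  set v : ℝ := |(b : ℝ)| / M with hv
  have hv0 : 0 ≤ v := by positivity
  have e0 : |(b : ℝ)| / (M * ρ) = v / ρ := by rw [hv]; field_simp
  rw [e0]
  have h1 : |((∑ j ∈ range (k + 1), c j * b ^ j * M ^ (n - j) : ℤ) : ℝ)|
      ≤ ∑ j ∈ range (k + 1), (M : ℝ) ^ n * (4 ^ n * (((N + n).choose j : ℝ) * v ^ j)) := by
    rw [Int.cast_sum]
    refine (Finset.abs_sum_le_sum_abs _ _).trans (Finset.sum_le_sum fun j hj => ?_)
    rw [mem_range] at hj
    rw [term_real hM _ _ (by omega), abs_mul, abs_mul, abs_pow, abs_pow, abs_div,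
      abs_of_pos hM', ← hv]
    have h2 := hc j (by omega)
    have h3 : 0 ≤ v ^ j := by positivity
    have h4 : |(c j : ℝ)| * v ^ j ≤ 4 ^ n * ((N + n).choose j : ℝ) * v ^ j :=
      mul_le_mul_of_nonneg_right h2 h3
    calc (M : ℝ) ^ n * (|(c j : ℝ)| * v ^ j)
        ≤ (M : ℝ) ^ n * (4 ^ n * ((N + n).choose j : ℝ) * v ^ j) :=
          mul_le_mul_of_nonneg_left h4 (by positivity)
      _ = _ := by ring
  have h5 : ∑ j ∈ range (k + 1), (M : ℝ) ^ n * (4 ^ n * (((N + n).choose j : ℝ) * v ^ j))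
      ≤ ∑ j ∈ range (n + 1), (M : ℝ) ^ n * (4 ^ n * (((N + n).choose j : ℝ) * v ^ j)) := by
    refine Finset.sum_le_sum_of_subset_of_nonneg ?_ ?_
    · intro i hi; rw [mem_range] at hi ⊢; omega
    · intro i _ _; positivity
  refine h1.trans (h5.trans ?_)
  rw [← Finset.mul_sum, ← Finset.mul_sum]
  have h6 := sumbound (N + n) n (by omega) hv0 hρ
  calc (M : ℝ) ^ n * (4 ^ n * ∑ j ∈ range (n + 1), ((N + n).choose j : ℝ) * v ^ j)
      ≤ (M : ℝ) ^ n * (4 ^ n * (ρ ^ n * (1 + v / ρ) ^ (N + n))) := by gcongr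
    _ = _ := by ring

lemma rem_bound (h : PadStmt) {M b : ℤ} (hM : 0 < M) (N n p : ℕ) (hp : p ≤ n) (hp' : n ≤ p + 1)
    (hN : p + 1 ≤ N) {ρ : ℝ} (hρ : 1 ≤ ρ) (hb : 2 * |(b : ℝ)| * ρ ≤ M) :
    |((Qz N n p M b : ℤ) : ℝ) * (1 + (b : ℝ) / M) ^ N - (Pz N n p M b : ℤ)|
      ≤ (M : ℝ) ^ n * (2 * |(b : ℝ)| * ρ / M) ^ (2 * n) * (1 + 1 / ρ) ^ (N + n) := by
  have hM' : (0 : ℝ) < M := by exact_mod_cast hM
  have hρ0 : (0 : ℝ) < ρ := by linarith
  set v : ℝ := |(b : ℝ)| / M with hv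
  have hv0 : 0 ≤ v := by positivity
  have e0 : 2 * |(b : ℝ)| * ρ / M = 2 * v * ρ := by rw [hv]; field_simp
  have hv1 : 2 * v * ρ ≤ 1 := by
    rw [← e0, div_le_one hM']; exact hb
  rw [e0, rem_real h hM b N n p hp hN, abs_mul, abs_mul, abs_mul, abs_pow, abs_pow, abs_pow,
    abs_neg, abs_one, one_pow, one_mul, abs_div, abs_of_pos hM', ← hv, mul_assoc]
  refine mul_le_mul_of_nonneg_left ?_ (by positivity)
  have h1 : |∑ j ∈ range (N - p), (cR N p n j : ℝ) * ((b : ℝ) / M) ^ j|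
      ≤ ∑ j ∈ range (N - p), (cR N p n j : ℝ) * v ^ j := by
    refine (Finset.abs_sum_le_sum_abs _ _).trans (Finset.sum_le_sum fun j _ => ?_)
    rw [abs_mul, abs_pow, abs_div, abs_of_pos hM', ← hv]
    have : |(cR N p n j : ℝ)| = (cR N p n j : ℝ) := by
      unfold cR; rw [Int.cast_natCast, Nat.abs_cast]
    rw [this]
  have h2 : v ^ (p + n + 1) * ∑ j ∈ range (N - p), (cR N p n j : ℝ) * v ^ j
      ≤ ∑ i ∈ range (N + n + 1), (2 * v * ρ) ^ (2 * n) * (((N + n).choose i : ℝ) * (1 / ρ) ^ i) := by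
    rw [show N + n + 1 = (p + n + 1) + (N - p) by omega, Finset.sum_range_add, Finset.mul_sum]
    have h3 : 0 ≤ ∑ i ∈ range (p + n + 1),
        (2 * v * ρ) ^ (2 * n) * (((N + n).choose i : ℝ) * (1 / ρ) ^ i) :=
      Finset.sum_nonneg fun i _ => by positivity
    have h4 : ∑ j ∈ range (N - p), v ^ (p + n + 1) * ((cR N p n j : ℝ) * v ^ j)
        ≤ ∑ j ∈ range (N - p), (2 * v * ρ) ^ (2 * n) *
          (((N + n).choose (p + n + 1 + j) : ℝ) * (1 / ρ) ^ (p + n + 1 + j)) := by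
      refine Finset.sum_le_sum fun j _ => ?_
      have e1 : v ^ (p + n + 1) * ((cR N p n j : ℝ) * v ^ j)
          = (cR N p n j : ℝ) * v ^ (p + n + 1 + j) := by
        rw [pow_add v (p + n + 1) j]; ring
      have h5 : (cR N p n j : ℝ) ≤ ((N + n).choose (p + n + 1 + j) : ℝ) * 2 ^ (p + n + 1 + j) := by
        unfold cR
        rw [Int.cast_natCast]
        push_cast
        have h6 : ((n + j).choose n : ℝ) ≤ 2 ^ (p + n + 1 + j) := by
          have h7 : (n + j).choose n ≤ 2 ^ (n + j) := Nat.choose_le_two_pow _ _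
          have h8 : 2 ^ (n + j) ≤ 2 ^ (p + n + 1 + j) :=
            Nat.pow_le_pow_right (by norm_num) (by omega)
          exact_mod_cast h7.trans h8
        have h9 : (0 : ℝ) ≤ ((N + n).choose (p + n + 1 + j) : ℝ) := by positivity
        exact mul_le_mul_of_nonneg_left h6 h9
      have h10 : (2 * v) ^ (p + n + 1 + j)
          ≤ (2 * v * ρ) ^ (2 * n) * (1 / ρ) ^ (p + n + 1 + j) := by
        have e2 : (2 * v) ^ (p + n + 1 + j)
            = (2 * v * ρ) ^ (p + n + 1 + j) * (1 / ρ) ^ (p + n + 1 + j) := by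
          rw [← mul_pow]; congr 1; field_simp
        rw [e2]
        refine mul_le_mul_of_nonneg_right ?_ (by positivity)
        exact pow_le_pow_of_le_one (by positivity) hv1 (by omega)
      rw [e1]
      calc (cR N p n j : ℝ) * v ^ (p + n + 1 + j)
          ≤ ((N + n).choose (p + n + 1 + j) : ℝ) * 2 ^ (p + n + 1 + j) * v ^ (p + n + 1 + j) :=
            mul_le_mul_of_nonneg_right h5 (by positivity)
        _ = ((N + n).choose (p + n + 1 + j) : ℝ) * (2 * v) ^ (p + n + 1 + j) := by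
            rw [mul_pow]; ring
        _ ≤ ((N + n).choose (p + n + 1 + j) : ℝ) *
            ((2 * v * ρ) ^ (2 * n) * (1 / ρ) ^ (p + n + 1 + j)) :=
            mul_le_mul_of_nonneg_left h10 (by positivity)
        _ = _ := by ring
    linarith
  have h11 : ∑ i ∈ range (N + n + 1), (2 * v * ρ) ^ (2 * n) * (((N + n).choose i : ℝ) * (1 / ρ) ^ i)
      = (2 * v * ρ) ^ (2 * n) * (1 + 1 / ρ) ^ (N + n) := by
    rw [← Finset.mul_sum, add_comm 1 (1 / ρ), add_pow]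
    congr 1
    refine Finset.sum_congr rfl fun j _ => ?_
    simp [mul_comm]
  calc v ^ (p + n + 1) * |∑ j ∈ range (N - p), (cR N p n j : ℝ) * ((b : ℝ) / M) ^ j|
      ≤ v ^ (p + n + 1) * ∑ j ∈ range (N - p), (cR N p n j : ℝ) * v ^ j := by gcongr
    _ ≤ _ := h2
    _ = _ := h11

lemma div_int (h : PadStmt) {M b : ℤ} (hM : 0 < M) (N n p : ℕ) (hp : p ≤ n) (hp' : n ≤ p + 1)
    (hN : p + 1 ≤ N) :
    ∃ K : ℤ, Qz N n p M b * (M + b) ^ N - Pz N n p M b * M ^ N = b ^ (2 * n) * K := by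
  refine ⟨b ^ (p + n + 1 - 2 * n) * ((-1) ^ n *
    ∑ j ∈ range (N - p), cR N p n j * b ^ j * M ^ (N - p - 1 - j)), ?_⟩
  have hM' : (M : ℝ) ≠ 0 := by exact_mod_cast hM.ne'
  rw [← mul_assoc, ← pow_add, show 2 * n + (p + n + 1 - 2 * n) = p + n + 1 by omega]
  have h0 := rem_real h hM b N n p hp hN
  have h1 : ((Qz N n p M b * (M + b) ^ N - Pz N n p M b * M ^ N : ℤ) : ℝ)
      = (M : ℝ) ^ N * (((Qz N n p M b : ℤ) : ℝ) * (1 + (b : ℝ) / M) ^ N - (Pz N n p M b : ℤ)) := by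
    push_cast
    have : ((M : ℝ) + b) ^ N = (M : ℝ) ^ N * (1 + (b : ℝ) / M) ^ N := by
      rw [← mul_pow]; congr 1; field_simp
    rw [this]; ring
  have h2 : ((b ^ (p + n + 1) * ((-1) ^ n *
      ∑ j ∈ range (N - p), cR N p n j * b ^ j * M ^ (N - p - 1 - j)) : ℤ) : ℝ)
      = (M : ℝ) ^ N * ((M : ℝ) ^ n * (((b : ℝ) / M) ^ (p + n + 1) * ((-1) ^ n *
          ∑ j ∈ range (N - p), (cR N p n j : ℝ) * ((b : ℝ) / M) ^ j))) := by
    have h3 : ∀ j ∈ range (N - p), ((cR N p n j * b ^ j * M ^ (N - p - 1 - j) : ℤ) : ℝ)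
        = (M : ℝ) ^ (N - p - 1) * ((cR N p n j : ℝ) * ((b : ℝ) / M) ^ j) := by
      intro j hj
      rw [mem_range] at hj
      exact term_real hM _ _ (by omega)
    have h4 : ((∑ j ∈ range (N - p), cR N p n j * b ^ j * M ^ (N - p - 1 - j) : ℤ) : ℝ)
        = (M : ℝ) ^ (N - p - 1) * ∑ j ∈ range (N - p), (cR N p n j : ℝ) * ((b : ℝ) / M) ^ j := by
      rw [Int.cast_sum, Finset.sum_congr rfl h3, ← Finset.mul_sum]
    have h5 : (M : ℝ) ^ N * (M : ℝ) ^ n = (M : ℝ) ^ (N - p - 1) * (M : ℝ) ^ (p + n + 1) := by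
      rw [← pow_add, ← pow_add]; congr 1; omega
    rw [Int.cast_mul, Int.cast_mul, h4]
    push_cast
    rw [← mul_assoc ((M : ℝ) ^ N), h5, div_pow]
    field_simp
  have h6 : ((Qz N n p M b * (M + b) ^ N - Pz N n p M b * M ^ N : ℤ) : ℝ)
      = ((b ^ (p + n + 1) * ((-1) ^ n *
      ∑ j ∈ range (N - p), cR N p n j * b ^ j * M ^ (N - p - 1 - j)) : ℤ) : ℝ) := by
    rw [h1, h2, h0]
  exact_mod_cast h6

theorem pin (h : PadStmt) : PinStmt := by
  intro N n hn hN M b hM hb U V hUV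
  have hM' : (M : ℝ) ≠ 0 := by exact_mod_cast hM.ne'
  have hb' : (b : ℝ) ≠ 0 := by exact_mod_cast hb
  -- one of the two approximants works
  have key : ∃ p, p ≤ n ∧ n ≤ p + 1 ∧ Qz N n p M b * V - Pz N n p M b * U ≠ 0 := by
    by_contra hcon
    push Not at hcon
    have h1 := hcon (n - 1) (by omega) (by omega)
    have h2 := hcon n le_rfl (by omega)
    obtain ⟨c, hc, hdet⟩ := det_eq h N n hn hN
    have h3 := congrArg (aeval ((b : ℝ) / M)) hdet
    rw [map_sub, map_mul, map_mul] at h3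
    have h4 : aeval ((b : ℝ) / M) (C c * (X : ℤ[X]) ^ (2 * n)) = c * ((b : ℝ) / M) ^ (2 * n) := by
      simp
    rw [h4] at h3
    have p1 := Pz_real hM b N n (n - 1) (by omega)
    have p2 := Pz_real hM b N n n le_rfl
    have q1 := Qz_real hM b N n (n - 1)
    have q2 := Qz_real hM b N n n
    have h5 : ((Pz N n (n - 1) M b * Qz N n n M b - Pz N n n M b * Qz N n (n - 1) M b : ℤ) : ℝ)
        ≠ 0 := by
      push_cast
      rw [p1, p2, q1, q2]
      have : (M : ℝ) ^ n * (aeval ((b : ℝ) / M)) (Pp N (n - 1) n) *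
          ((M : ℝ) ^ n * (aeval ((b : ℝ) / M)) (Qp N n n)) -
          (M : ℝ) ^ n * (aeval ((b : ℝ) / M)) (Pp N n n) *
          ((M : ℝ) ^ n * (aeval ((b : ℝ) / M)) (Qp N (n - 1) n))
          = (M : ℝ) ^ n * (M : ℝ) ^ n * (c * ((b : ℝ) / M) ^ (2 * n)) := by
        rw [← h3]; ring
      rw [this]
      have hc' : (c : ℝ) ≠ 0 := by exact_mod_cast hc
      positivity
    have h6 : Pz N n (n - 1) M b * Qz N n n M b - Pz N n n M b * Qz N n (n - 1) M b ≠ 0 := by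
      intro h0
      apply h5
      rw [h0]; simp
    apply h6
    rcases hUV with hU | hV
    · have h7 : U * (Pz N n (n - 1) M b * Qz N n n M b - Pz N n n M b * Qz N n (n - 1) M b) = 0 := by
        linear_combination (Qz N n (n - 1) M b) * h2 - (Qz N n n M b) * h1
      exact (mul_eq_zero.mp h7).resolve_left hU
    · have h7 : V * (Pz N n (n - 1) M b * Qz N n n M b - Pz N n n M b * Qz N n (n - 1) M b) = 0 := by
        linear_combination (Pz N n (n - 1) M b) * h2 - (Pz N n n M b) * h1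
      exact (mul_eq_zero.mp h7).resolve_left hV
  obtain ⟨p, hp, hp', hne⟩ := key
  refine ⟨Pz N n p M b, Qz N n p M b, hne, div_int h hM N n p hp hp' (by omega), ?_, ?_, ?_⟩
  · intro ρ hρ
    exact bound_gen hM N n p hp _ (fun j _ => abs_cP_le hp) hρ
  · intro ρ hρ
    exact bound_gen hM N n n le_rfl _ (fun j hj => abs_cQ_le hp hj (by omega)) hρ
  · intro ρ hρ hb2
    exact rem_bound h hM N n p hp hp' (by omega) hρ hb2

end Pool.Agent.SHP.H78
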